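import Pool.Agent.V5helper66.Karp.DensMain

set_option autoImplicit false

/-!
# For almost all `n` every property with minimal graphs on `n ^ o(1)` vertices is evasive
(MP_257582_lc)

Let `ε n → 0`. For all `n` outside a set of natural density zero EVERY non-trivial monotone
isomorphism-invariant property of graphs on `n` vertices whose minimal members have at most
`n ^ (ε n)` non-isolated vertices is evasive, and dually. In particular: for every fixed graph `F`
with at least one edge (or every family of graphs of bounded order) containing a copy of `F` is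
evasive for almost all `n`, and for almost all `n` it is evasive to contain a clique on `k` vertices,
for all `k ≤ n ^ (ε n)` simultaneously.

Proof.  Suppose that `n` has a prime factor `p ≥ b` with `p - 1` coprime to `D = 2 ^ 2 ^ e - 1`,
`b ≤ 2 ^ 2 ^ e`, and `n ≥ p (2 (p - 1) D + 1)`. The vertex set is cut into `t` fields of orders `p`
and `p ^ 2`. The group consists of the translations of the fields (a `p`-group) and the powers of an
element which multiplies all fields by generators. An invariant graph without a small member of the
property is a blow-up of a graph `Y` on the `t` blocks, without homomorphism from a minimal member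
to `Y`. If the property is not evasive then the number `a_t` of these graphs `Y` is even (it is zero
with signs). In the ring of block types of `CubicalPartition` (modulo 2) the empty block `x`
satisfies `(1 - Frobenius) ^ (2 ^ e) x = 0`, so `x ^ (D + 1) = x` and `a_t` depends only on `t`
modulo `D`; `p` blocks of order `p` can be replaced by one of order `p ^ 2`, which changes `t` by
`p - 1`, so that `t ≡ 1` modulo `D` and `a_t ≡ a_1 = 1`.

That almost all `n` have such a prime factor between `n ^ (ε n)` and `n ^ (1/16)`: `D` is the product
of the Fermat numbers `F_j`, `j < e`. The primes `p ≡ 2` modulo `F_0 ⋯ F_(J-1)` (prime number theorem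
for arithmetic progressions, helpers 602 and 923 of the team) with `p ≢ 1` modulo all primes `l`
dividing some `F_j`, `j ≥ J` (theorem of Brun and Titchmarsh, helper 602; these `l` are `1` modulo
`2 ^ (j + 2)`, so the sum of their reciprocals is small) have positive relative density, uniformly in
`e`, and a variance estimate for the number of the prime factors of this kind completes the proof.
-/

namespace Pool.Agent.Results.MP_257582_lc.AlmostAllOrders

open Filter Topology Pool.Agent.V5helper66.Karp

/-- Every decision strategy `σ` (the next pair to be queried depends only on the answers to the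
queries made so far) needs all `n.choose 2` queries: there are two graphs that agree on the first
`n.choose 2 - 1` queried pairs, one with and one without `P`. -/
def Evasive {n : ℕ} (P : SimpleGraph (Fin n) → Prop) : Prop :=
  ∀ σ : Finset (Sym2 (Fin n)) → SimpleGraph (Fin n) → Sym2 (Fin n),
    (∀ (Q : Finset (Sym2 (Fin n))) (G H : SimpleGraph (Fin n)),
        (∀ e ∈ Q, (e ∈ G.edgeSet ↔ e ∈ H.edgeSet)) → σ Q G = σ Q H) →
    ∃ G H : SimpleGraph (Fin n),
      (∀ e ∈ (fun Q : Finset (Sym2 (Fin n)) => insert (σ Q G) Q)^[n.choose 2 - 1]
            (∅ : Finset (Sym2 (Fin n))),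
          (e ∈ G.edgeSet ↔ e ∈ H.edgeSet)) ∧ P G ∧ ¬ P H

/-- `P` is monotone, isomorphism-invariant and non-trivial. -/
def Admissible {n : ℕ} (P : SimpleGraph (Fin n) → Prop) : Prop :=
  (∀ G H : SimpleGraph (Fin n), G ≤ H → P G → P H) ∧
    (∀ (σ : Fin n ≃ Fin n) (G : SimpleGraph (Fin n)), P G → P (G.map σ.toEmbedding)) ∧
    (∃ G : SimpleGraph (Fin n), P G) ∧ ∃ G : SimpleGraph (Fin n), ¬ P G

/-- Every member of `P` contains a member with at most `b` non-isolated vertices (`H.support` is
the set of the non-isolated vertices of `H`), or every non-member is contained in a non-member whose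
complement has at most `b` non-isolated vertices. -/
def SmallMinimal {n : ℕ} (b : ℝ) (P : SimpleGraph (Fin n) → Prop) : Prop :=
  (∀ G : SimpleGraph (Fin n), P G → ∃ H ≤ G, P H ∧ (H.support.ncard : ℝ) ≤ b) ∨
    (∀ G : SimpleGraph (Fin n), ¬ P G → ∃ H ≥ G, ¬ P H ∧ (Hᶜ.support.ncard : ℝ) ≤ b)

/-- **For almost all `n` the properties with minimal members on `n ^ o(1)` vertices are
evasive.** The set of all `n` for which some such property is not evasive has density zero. -/
theorem result (ε : ℕ → ℝ) (hε : Tendsto ε atTop (𝓝 0)) :
    Tendsto (fun N : ℕ => (({n : ℕ | (1 ≤ n ∧ n ≤ N) ∧ ∃ P : SimpleGraph (Fin n) → Prop,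
      Admissible P ∧ SmallMinimal ((n : ℝ) ^ ε n) P ∧ ¬ Evasive P}.ncard : ℕ) : ℝ) / N)
      atTop (𝓝 0) := by
  refine density_main ε hε (fun n => ∃ P : SimpleGraph (Fin n) → Prop,
    Admissible P ∧ SmallMinimal ((n : ℝ) ^ ε n) P ∧ ¬ Evasive P) ?_
  rintro n _ hall ⟨P, ⟨h1, h2, h3, h4⟩, h5, h6⟩
  apply h6
  refine hall P h1 h2 h3 h4 ?_
  rcases h5 with h5 | h5
  · left
    intro G hG
    obtain ⟨H, hH1, hH2, hH3⟩ := h5 G hG
    exact ⟨H, hH1, hH2, Nat.le_floor hH3⟩
  · right
    intro G hG
    obtain ⟨H, hH1, hH2, hH3⟩ := h5 G hG
    exact ⟨H, hH1, hH2, Nat.le_floor hH3⟩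

end Pool.Agent.Results.MP_257582_lc.AlmostAllOrders
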