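import Mathlib
import Pool.Agent.H119R2.Kp.D4
import Pool.Agent.V5helper63.RS.F2
import Pool.Agent.V5helper63.RS.J

set_option autoImplicit false

/-!
# Connectivity, diameter and cycles of cliques: complexity `(1/2 - o(1)) n^2` (MP_257582_lc)

Let `K` be an odd prime, `δ > 0` and `n` large. Let `P` be a monotone isomorphism-invariant property
of graphs on `n` vertices. Suppose that

* on the blow-ups by cliques of the graphs `I` on `K` vertices the property `P` is given by a monotone
  isomorphism-invariant property `Q` of the graphs `I`, which holds for the cycle of length `K` but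
  not for the graph without edges, or
* all blow-ups of the cycle of length `K` have `P`, but the graph that consists of `K` disjoint
  cliques with `⌊n / K⌋` vertices each and of `n % K` vertices adjacent to all vertices has not, or
* (`Critical`) some graph in `P` has `K` disjoint sets of `p` twins, `p` a prime with
  `K p ≥ (1 - δ) n`, such that no subgraph without edges between two of these sets is in `P`.

Then `P` has decision tree complexity at least `(1/2 - 1/(2 K) - δ) n ^ 2`; the same holds if the
dual property is of this kind. There is no arithmetic condition on `n`.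

The hypothesis holds (for `δ ≤ 1 / (3 K)` and large `n`) for the property of having diameter at most
`d`, for every `d ≥ 2` (for `d > K` it is of the first, for `2 ≤ d ≤ K` of the third kind), and for
every `P` which contains the power of order `⌊n / (6 K ^ 3)⌋` of the Hamiltonian path, but no
disconnected graph, or not the last graph of the second case. Hence for `k = o(n)` to be
`k`-connected, to contain the `k`-th power of a Hamiltonian path, or to contain a fixed connected
spanning graph of bandwidth at most `k`, and to have diameter at most `d`, all have complexity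
`(1/2 - o(1)) n ^ 2`, and so has every monotone isomorphism-invariant property between any two of
the first three kinds. The first case contains for instance the property that every component has at
least `β n` vertices (`β K` not an integer, `1 < β K`, `β ≤ 1`).

For `n` a prime power every non-trivial property is evasive (Kahn, Saks, Sturtevant). From this one
gets `(1/2 - o(1)) n ^ 2` for those `P` which become non-trivial on some prime power `n - r`,
`r = o(n)`, of the vertices if the other `r` vertices and their edges are fixed (for instance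
isolated, universal, or a component of their own). This is not the case for the properties above;
for general `n` and general properties the best bound is `(3/8 - o(1)) n ^ 2` (`ThreeEighths`).

Proof.  Let `p` be a prime slightly below `m = ⌊n / K⌋`. In the first two cases the vertices are cut
into `K` cliques of size `m`, each of them a block `Z_p` and `m - p` fixed vertices, and `n % K`
further vertices which are joined to the clique number `0`, or to all cliques. The pairs of
different blocks are free; they are `C(K,2) p ^ 2` pairs. If the complexity is smaller, then (Smith,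
Lefschetz; Kahn, Saks and Sturtevant) the signed number of the graphs `I` on the set of the `K`
blocks, for which joining the blocks along `I` gives a member, vanishes. In both cases the set of
these `I` is invariant under the rotation of `Z_K` (in the first case because it is given by `Q`, in
the second one because all cliques are alike) and contains all nonempty rotation-invariant graphs
(they contain a cycle of length `K`), but not the empty one. The rotation, of prime order `K`, shows
that the signed number is `-1` modulo `K`, because the cycle of length `K` can be added to or removed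
from an invariant graph (symmetric difference). In the third case the blocks are the sets of twins
and only the complete graph `I` gives a member. For the diameter `d ≤ K` the blocks are cliques, and
each of them is connected with a central clique by a path of length `d`: every two vertices are on a
cycle of length `2 d + 1` through the center if `I` is complete, and if the blocks `i`, `j` are not
joined, the last vertex before the center on the path number `i` has distance `d + 1` from the
block `j`.
-/

namespace Pool.Agent.Results.MP_257582_lc.CliqueBlowUps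

/-- power of the Hamiltonian path: numbers at distance at most `w` are adjacent -/
def pathPower (n w : ℕ) : SimpleGraph (Fin n) where
  Adj i j := i ≠ j ∧ (i : ℕ) ≤ (j : ℕ) + w ∧ (j : ℕ) ≤ (i : ℕ) + w
  symm := ⟨fun _ _ h => ⟨h.1.symm, h.2.2, h.2.1⟩⟩
  loopless := ⟨fun _ h => h.1 rfl⟩

/-- `K` disjoint cliques with `n / K` vertices each; the remaining `n % K` vertices are adjacent to
all vertices -/
def cliquesCone (n K : ℕ) : SimpleGraph (Fin n) where
  Adj u v := u ≠ v ∧ ((u : ℕ) / (n / K) = (v : ℕ) / (n / K) ∨ K * (n / K) ≤ (u : ℕ) ∨
    K * (n / K) ≤ (v : ℕ))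
  symm := ⟨fun _ _ h => ⟨h.1.symm, by
    rcases h.2 with h2 | h2 | h2
    · exact Or.inl h2.symm
    · exact Or.inr (Or.inr h2)
    · exact Or.inr (Or.inl h2)⟩⟩
  loopless := ⟨fun _ h => h.1 rfl⟩

/-- all distances are at most `d` -/
def DiameterAtMost (d : ℕ) {n : ℕ} (G : SimpleGraph (Fin n)) : Prop :=
  ∀ u v : Fin n, ∃ W : G.Walk u v, W.length ≤ d

/-- `G` is a blow-up of the graph `I` on `K` vertices: the vertices of `G` are partitioned into `K`
cliques, all except the clique number `0` have `⌊n / K⌋` vertices; for all vertices outside of an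
exceptional set of at most `δ n` vertices those in cliques which are adjacent in `I` are adjacent;
there are no edges between cliques which are not adjacent in `I`. -/
def BlowUp (K : ℕ) (δ : ℝ) {n : ℕ} (I : SimpleGraph (Fin K)) (G : SimpleGraph (Fin n)) : Prop :=
  ∃ (c : Fin n → Fin K) (C : Set (Fin n)),
    (∀ i : Fin K, (i : ℕ) ≠ 0 → {u | c u = i}.ncard = n / K) ∧
    ((Cᶜ.ncard : ℕ) : ℝ) ≤ δ * n ∧
    (∀ u v, u ≠ v → c u = c v → G.Adj u v) ∧
    (∀ u ∈ C, ∀ v ∈ C, I.Adj (c u) (c v) → G.Adj u v) ∧
    (∀ u v, G.Adj u v → c u = c v ∨ I.Adj (c u) (c v))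

/-- There is a graph `G` in `P` with `K` disjoint sets of `p` twins each, `p` a prime, which contain
all except at most `δ n` vertices, such that no subgraph of `G` without edges between two of these
sets is in `P`. -/
def Critical (K : ℕ) (δ : ℝ) {n : ℕ} (P : SimpleGraph (Fin n) → Prop) : Prop :=
  ∃ (p : ℕ) (c : Fin n → Option (Fin K)) (G : SimpleGraph (Fin n)),
    p.Prime ∧ (1 - δ) * n ≤ K * p ∧ (∀ i, {u | c u = some i}.ncard = p) ∧
    (∀ u v w, u ≠ w → v ≠ w → c u = c v → c u ≠ none → (G.Adj u w ↔ G.Adj v w)) ∧ P G ∧
    ∀ i j, i ≠ j → ∀ H : SimpleGraph (Fin n), H ≤ G →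
      (∀ u v, c u = some i → c v = some j → ¬ H.Adj u v) → ¬ P H

/-- On the blow-ups of graphs with `K` vertices `P` is given by a monotone isomorphism-invariant
property of graphs on `K` vertices which holds for the cycle of length `K`, but not for the graph
without edges; or all blow-ups of the cycle of length `K` have `P`, but the graph consisting of `K`
disjoint cliques and universal vertices does not have `P`; or there is a critical graph. -/
def Between (K : ℕ) (δ : ℝ) {n : ℕ} (P : SimpleGraph (Fin n) → Prop) : Prop :=
  (∃ Q : SimpleGraph (Fin K) → Prop, (∀ I J, I ≤ J → Q I → Q J) ∧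
    (∀ (σ : Fin K ≃ Fin K) (I : SimpleGraph (Fin K)), Q I → Q (I.map σ.toEmbedding)) ∧
    ¬ Q ⊥ ∧ Q (SimpleGraph.cycleGraph K) ∧ ∀ I G, BlowUp K δ I G → (P G ↔ Q I)) ∨
  ((∀ I, Nonempty (SimpleGraph.cycleGraph K ≃g I) → ∀ G, BlowUp K δ I G → P G) ∧
    ¬ P (cliquesCone n K)) ∨
  Critical K δ P

/-- **Connectivity, diameter and cycles of cliques.** -/
theorem result :
    (∀ K : ℕ, K.Prime → 3 ≤ K → ∀ δ : ℝ, 0 < δ → ∃ N : ℕ, ∀ n : ℕ, N ≤ n →
      ∀ P : SimpleGraph (Fin n) → Prop,
        (∀ G H : SimpleGraph (Fin n), G ≤ H → P G → P H) →
        (∀ (σ : Fin n ≃ Fin n) (G : SimpleGraph (Fin n)), P G → P (G.map σ.toEmbedding)) →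
        (Between K δ P ∨ Between K δ (fun G : SimpleGraph (Fin n) => ¬ P Gᶜ)) →
        ∀ s : Finset (Sym2 (Fin n)) → SimpleGraph (Fin n) → Sym2 (Fin n),
          (∀ (Q : Finset (Sym2 (Fin n))) (G H : SimpleGraph (Fin n)),
              (∀ e ∈ Q, (e ∈ G.edgeSet ↔ e ∈ H.edgeSet)) → s Q G = s Q H) →
          ∀ q : ℕ, (q : ℝ) < (1 / 2 - 1 / (2 * K) - δ) * (n : ℝ) ^ 2 →
            ∃ G H : SimpleGraph (Fin n),
              (∀ e ∈ (fun Q : Finset (Sym2 (Fin n)) => insert (s Q G) Q)^[q]
                    (∅ : Finset (Sym2 (Fin n))),
                  (e ∈ G.edgeSet ↔ e ∈ H.edgeSet)) ∧ P G ∧ ¬ P H) ∧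
    (∀ K : ℕ, 3 ≤ K → ∀ δ : ℝ, 0 < δ → δ ≤ 1 / (3 * K) → ∃ N : ℕ, ∀ n : ℕ, N ≤ n →
      (∀ d : ℕ, 2 ≤ d → Between K δ (fun G : SimpleGraph (Fin n) => DiameterAtMost d G)) ∧
      (∀ P : SimpleGraph (Fin n) → Prop,
        (∀ G H : SimpleGraph (Fin n), G ≤ H → P G → P H) →
        (∀ (σ : Fin n ≃ Fin n) (G : SimpleGraph (Fin n)), P G → P (G.map σ.toEmbedding)) →
        P (pathPower n (n / (6 * K ^ 3))) →
        ((∀ G : SimpleGraph (Fin n), P G → G.Connected) ∨ ¬ P (cliquesCone n K)) →
        Between K δ P)) := by
  constructor
  · intro K hKp hK δ hδ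
    have : Fact K.Prime := ⟨hKp⟩
    obtain ⟨N, hN⟩ := Pool.Agent.V5helper63.RS.numbers2 K hK δ δ hδ hδ
    refine ⟨N, fun n hn P hmono hiso hB s hs q hq => ?_⟩
    obtain ⟨p, x, hp, hnx, hw, hqp⟩ := hN n hn
    have hpf : Fact p.Prime := ⟨hp⟩
    by_contra hcon
    have hGP : Pool.Agent.H119R2.Kp.GP n q P := by
      refine ⟨hmono, hiso, Pool.Agent.H119R2.Kp.dec_of_strategy q P s hs fun G H hGH hPG => ?_⟩
      by_contra hPH
      exact hcon ⟨G, H, hGH, hPG, hPH⟩
    rcases hB with hB | hB
    · exact Pool.Agent.V5helper63.RS.main4 hK hGP x p δ hnx hw (hqp q hq) hδ hq hB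
    · exact Pool.Agent.V5helper63.RS.main4 hK hGP.dual' x p δ hnx hw (hqp q hq) hδ hq hB
  · intro K hK δ hδ0 hδ
    obtain ⟨N, hN⟩ := Pool.Agent.V5helper63.RS.between_diam' K hK δ hδ0 hδ
    refine ⟨N + 6 * K, fun n hn => ⟨hN n (by omega), fun P hmono hiso h1 h2 =>
      Pool.Agent.V5helper63.RS.between_path' hδ hK (by omega) hmono hiso h1 h2⟩⟩

end Pool.Agent.Results.MP_257582_lc.CliqueBlowUps
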