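import Pool.Agent.V5helper66.Karp.FewMain
import Pool.Agent.V5helper66.Karp.FewProp

set_option autoImplicit false

/-!
# Properties with a minimal graph of chromatic number at most four (MP_257582_lc)

Let `Q` be a prime power dividing `n` and `r ≤ 4`, and let `P` be a non-trivial monotone
isomorphism-invariant property of graphs on `n` vertices whose minimal members have at most `Q`
non-isolated vertices, such that some member of `P` is `r`-colourable. If `n ≠ M Q` for
`2 ≤ M < r`, then `P` is evasive; and dually.

Consequence: for every fixed graph `F` with at least one edge and chromatic number at most `4` (of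
arbitrary order) it is an evasive property of graphs on `n` vertices to contain a copy of `F`, for
ALL large `n` except possibly `n = 2 p` (if `χ(F) ≥ 3`) and `n = 3 p` (if `χ(F) = 4`), `p` prime. For
bipartite `F` this is the theorem of Chakrabarti, Khot and Shi; for other `F` of unbounded order it
was known only for an arithmetic progression of `n`, for almost all `n` (`AlmostAllOrders`), or under
Chowla's conjecture on primes in arithmetic progressions (Babai, Banerjee, Kulkarni, Naik).

Proof.  The vertices are cut into `M = n / Q` copies of the field `F` with `Q` elements. Let `τ` be a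
permutation of the blocks. The group is generated by the translations of the single blocks (a
`p`-group) and one element which permutes the blocks by `τ` and whose power that fixes a block
multiplies it by a generator of the units. An invariant graph without a small member of `P` is a
blow-up of a `τ`-invariant graph `Y` on the blocks without homomorphism from a minimal member to `Y`.
If `P` is not evasive then, by the theorems of Smith and Oliver, the number of these `Y`, counted
with the sign of the number of orbits, is zero; it is used modulo 2. Let `x` be the type of an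
empty block in the ring of block types modulo 2 of `CubicalPartition`, `k ≤ 4` the least chromatic
number of a member, and `a_t` the value of the functional at `x ^ t`. If `k = 2` then `x ^ 2 = x` and
`a_M = 1`. If `k = 3, 4` then `x ^ 4 = x`, so `a_t` depends on `t` modulo 3 only; `a_1 = 1`, and
`a_3 = 1` for `k = 3`. For the remaining residues `τ` rotates three blocks, which gives
`x ^ (M - 2) - y x ^ (M - 3)` with the type `y` of a complete tripartite graph (`y = 0` for `k = 3`,
and `y x ^ 3` has value 0 for `k = 4`), or five blocks, which gives `x ^ (M - 4)`: the two cyclic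
graphs on five blocks are isomorphic and cancel, and the complete graph on five blocks contains a
member.
-/

namespace Pool.Agent.Results.MP_257582_lc.FewColours

open Pool.Agent.V5helper66.Karp

/-- Every decision strategy `σ` (the next pair to be queried depends only on the answers to the
queries made so far) needs all `n.choose 2` queries: there are two graphs that agree on the first
`n.choose 2 - 1` queried pairs, one with and one without `P`. -/
def Evasive {n : ℕ} (P : SimpleGraph (Fin n) → Prop) : Prop :=
  ∀ σ : Finset (Sym2 (Fin n)) → SimpleGraph (Fin n) → Sym2 (Fin n),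
    (∀ (Q : Finset (Sym2 (Fin n))) (G H : SimpleGraph (Fin n)),
        (∀ e ∈ Q, (e ∈ G.edgeSet ↔ e ∈ H.edgeSet)) → σ Q G = σ Q H) →
    ∃ G H : SimpleGraph (Fin n),
      (∀ e ∈ (fun Q : Finset (Sym2 (Fin n)) => insert (σ Q G) Q)^[n.choose 2 - 1]
            (∅ : Finset (Sym2 (Fin n))),
          (e ∈ G.edgeSet ↔ e ∈ H.edgeSet)) ∧ P G ∧ ¬ P H

/-- `P` is monotone, isomorphism-invariant and non-trivial. -/
def Admissible {n : ℕ} (P : SimpleGraph (Fin n) → Prop) : Prop :=
  (∀ G H : SimpleGraph (Fin n), G ≤ H → P G → P H) ∧
    (∀ (σ : Fin n ≃ Fin n) (G : SimpleGraph (Fin n)), P G → P (G.map σ.toEmbedding)) ∧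
    (∃ G : SimpleGraph (Fin n), P G) ∧ ∃ G : SimpleGraph (Fin n), ¬ P G

/-- Every member of `P` contains a member with at most `b` non-isolated vertices (`H.support` is
the set of the non-isolated vertices of `H`) and some member is `r`-colourable; or, dually, every
non-member is contained in a non-member whose complement has at most `b` non-isolated vertices and
the complement of some non-member is `r`-colourable. -/
def SmallColourable {n : ℕ} (b r : ℕ) (P : SimpleGraph (Fin n) → Prop) : Prop :=
  ((∀ G : SimpleGraph (Fin n), P G → ∃ H ≤ G, P H ∧ H.support.ncard ≤ b) ∧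
      ∃ G : SimpleGraph (Fin n), P G ∧ G.Colorable r) ∨
    ((∀ G : SimpleGraph (Fin n), ¬ P G → ∃ H ≥ G, ¬ P H ∧ Hᶜ.support.ncard ≤ b) ∧
      ∃ G : SimpleGraph (Fin n), ¬ P G ∧ Gᶜ.Colorable r)

theorem two_le {n : ℕ} {P : SimpleGraph (Fin n) → Prop} (hP : Admissible P) : 2 ≤ n := by
  obtain ⟨_, _, ⟨G, hG⟩, H, hH⟩ := hP
  by_contra hcon
  have h1 : Subsingleton (Fin n) := Fin.subsingleton_iff_le_one.2 (by omega)
  apply hH
  have : G = H := by
    ext a b
    rw [Subsingleton.elim a b]
    simp
  rwa [← this]

theorem main (p c M n b r : ℕ) (hp : p.Prime) (hc : 1 ≤ c) (hb : b ≤ p ^ c) (hn : n = M * p ^ c)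
    (hM1 : 1 ≤ M) (hr : r ≤ 4) (hM : M = 1 ∨ r ≤ M) (P : SimpleGraph (Fin n) → Prop)
    (hP : Admissible P) (hS : SmallColourable b r P) : Evasive P := by
  have h2 := two_le hP
  obtain ⟨hmono, hiso, hex, hne⟩ := hP
  have : Fact p.Prime := ⟨hp⟩
  intro s hs
  rcases hS with ⟨hloc, hcol⟩ | ⟨hloc, hcol⟩
  · exact col_evasive b r h2 (fun 𝓕 h3 h4 h5 =>
      fam_few p c M n r hc hn hM1 hr hM 𝓕 (fun F hF => (h3 F hF).trans hb) h4 h5)
      P hmono hiso hne hcol hloc s hs
  · exact col_evasive_dual b r h2 (fun 𝓕 h3 h4 h5 =>
      fam_few p c M n r hc hn hM1 hr hM 𝓕 (fun F hF => (h3 F hF).trans hb) h4 h5)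
      P hmono hiso hex hcol hloc s hs

/-- **Properties with small minimal graphs, one of them with chromatic number at most four.** -/
theorem result :
    (∀ n Q r : ℕ, IsPrimePow Q → Q ∣ n → r ≤ 4 → (∀ M : ℕ, 2 ≤ M → M < r → n ≠ M * Q) →
      ∀ P : SimpleGraph (Fin n) → Prop, Admissible P → SmallColourable Q r P → Evasive P) ∧
    (∀ b : ℕ, ∃ n₀ : ℕ, ∀ n r : ℕ, n₀ ≤ n → r ≤ 4 →
      (∀ p M : ℕ, p.Prime → 2 ≤ M → M < r → n ≠ M * p) →
      ∀ P : SimpleGraph (Fin n) → Prop, Admissible P → SmallColourable b r P → Evasive P) := by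
  constructor
  · intro n Q r hQ hdvd hr hM P hP hS
    obtain ⟨p, c, hp, hc, rfl⟩ := (isPrimePow_nat_iff Q).1 hQ
    obtain ⟨M, rfl⟩ := hdvd
    have h2 := two_le hP
    have hM1 : 1 ≤ M := by
      by_contra hcon
      have : M = 0 := by omega
      subst this
      omega
    refine main p c M _ (p ^ c) r hp hc le_rfl (mul_comm _ _) hM1 hr ?_ P hP hS
    by_contra hcon
    push Not at hcon
    exact hM M (by omega) hcon.2 (mul_comm _ _)
  · intro b
    refine ⟨(4 ^ 2 * (b + 1) + (b + 1) ^ 2 + (b + 1) + 1) ^
      (4 ^ 2 * (b + 1) + (b + 1) ^ 2 + (b + 1) + 1) + 1, fun n r hn hr hM P hP hS => ?_⟩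
    have hr2 : r ^ 2 * (b + 1) + (b + 1) ^ 2 + (b + 1) + 1 ≤
        4 ^ 2 * (b + 1) + (b + 1) ^ 2 + (b + 1) + 1 := by
      have := Nat.mul_le_mul_right (b + 1) (Nat.pow_le_pow_left hr 2)
      omega
    have h1 : (r ^ 2 * (b + 1) + (b + 1) ^ 2 + (b + 1) + 1) ^
        (r ^ 2 * (b + 1) + (b + 1) ^ 2 + (b + 1) + 1) < n :=
      lt_of_le_of_lt ((Nat.pow_le_pow_left hr2 _).trans
        (Nat.pow_le_pow_right (by omega) hr2)) (by omega)
    obtain ⟨p, c, M, hp, hc, hb, hn', hM1, hM2⟩ := exists_block (b + 1) r n (by omega) h1 hM
    exact main p c M n b r hp hc ((Nat.le_succ b).trans hb) hn' hM1 hr hM2 P hP hS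

end Pool.Agent.Results.MP_257582_lc.FewColours
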