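import Pool.Agent.V5helper66.Karp.Local
import Pool.Agent.V5helper66.Karp.FamMain

set_option autoImplicit false

/-!
# Properties with small minimal graphs are evasive for all large `n` (MP_257582_lc)

There is an absolute constant `n₀` such that for ALL `n ≥ n₀` every non-trivial monotone
isomorphism-invariant property of graphs on `n` vertices all of whose minimal members have at most
`65536` non-isolated vertices is evasive, and dually. In particular, for EVERY graph `F` with at
least one edge and at most `65536` vertices (or every family of such graphs) containing a copy of
`F` is an evasive property of graphs on `n` vertices for all large `n`; no hypothesis from number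
theory is assumed. (Babai, Banerjee, Kulkarni and Naik proved this for every fixed `F` under
Chowla's conjecture on Dirichlet primes; unconditionally it was known for bipartite `F`
(Chakrabarti, Khot, Shi), and from the starting files for `F` with a partition into few cubical
classes, for example not for `K_{3,3,3}`.)

Proof.  The vertex set is cut into `M` fields of orders `2 ^ 16` and `2 ^ 17` and at most 21 prime
blocks `ZMod ℓ` with different primes `ℓ = 2 * 3 ^ K + 1`, `30 ≤ K ≤ 17720`; every residue modulo
`2 ^ 16` is a sum of some of these primes (`cover`), so this is possible for every large `n`. The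
group consists of the translations of the fields (a 2-group), the powers of one element which
multiplies the fields by generators and rotates the prime blocks, and the multiplications of the
prime blocks by elements of order `3 ^ K` (a 3-group). Since `-1` and an element of order `3 ^ K`
generate the units modulo `ℓ`, every block is empty or complete in an invariant graph, and two
blocks are joined completely or not at all. So an invariant graph without a member of the family is
a blow-up of a graph `Y` on the set of the `t` blocks into which no member maps homomorphically. If
the property is not evasive then the signed number `a_t` of these `Y` is divisible by 3. In the ring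
of block types of `CubicalPartition` the type `x` of the empty block satisfies
`(1 - Frobenius) ^ (I + 1) x = 0`, where some member has a colouring with `3 ^ (I + 1)` colours, so
`x ^ (3 ^ 27) = x` and `a_t` modulo 3 depends only on `t` modulo `3 ^ 27 - 1`; a suitable number of
field blocks gives `t ≡ 1` and `a_t ≡ a_1 = 1`.
-/

namespace Pool.Agent.Results.MP_257582_lc.SmallMinimalGraphs

open Pool.Agent.V5helper66.Karp

/-- Every decision strategy `σ` (the next pair to be queried depends only on the answers to the
queries made so far) needs all `n.choose 2` queries: there are two graphs that agree on the first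
`n.choose 2 - 1` queried pairs, one with and one without `P`. -/
def Evasive {n : ℕ} (P : SimpleGraph (Fin n) → Prop) : Prop :=
  ∀ σ : Finset (Sym2 (Fin n)) → SimpleGraph (Fin n) → Sym2 (Fin n),
    (∀ (Q : Finset (Sym2 (Fin n))) (G H : SimpleGraph (Fin n)),
        (∀ e ∈ Q, (e ∈ G.edgeSet ↔ e ∈ H.edgeSet)) → σ Q G = σ Q H) →
    ∃ G H : SimpleGraph (Fin n),
      (∀ e ∈ (fun Q : Finset (Sym2 (Fin n)) => insert (σ Q G) Q)^[n.choose 2 - 1]
            (∅ : Finset (Sym2 (Fin n))),
          (e ∈ G.edgeSet ↔ e ∈ H.edgeSet)) ∧ P G ∧ ¬ P H

/-- **Properties with small minimal graphs are evasive.** `H.support` is the set of the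
non-isolated vertices of `H`. -/
theorem result : ∃ n₀ : ℕ, ∀ n : ℕ, n₀ ≤ n → ∀ P : SimpleGraph (Fin n) → Prop,
    (∀ G H : SimpleGraph (Fin n), G ≤ H → P G → P H) →
    (∀ (σ : Fin n ≃ Fin n) (G : SimpleGraph (Fin n)), P G → P (G.map σ.toEmbedding)) →
    (∃ G : SimpleGraph (Fin n), P G) →
    (∃ G : SimpleGraph (Fin n), ¬ P G) →
    ((∀ G : SimpleGraph (Fin n), P G → ∃ H ≤ G, P H ∧ H.support.ncard ≤ 65536) ∨
      (∀ G : SimpleGraph (Fin n), ¬ P G → ∃ H ≥ G, ¬ P H ∧ Hᶜ.support.ncard ≤ 65536)) →
    Evasive P := by
  obtain ⟨n₀, hn₀⟩ := fam_small
  refine ⟨max n₀ 2, fun n hn P hmono hiso hex hne hloc => ?_⟩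
  have h1 : n₀ ≤ n := (le_max_left _ _).trans hn
  have h2 : 2 ≤ n := (le_max_right _ _).trans hn
  intro s hs
  rcases hloc with hloc | hloc
  · exact local_evasive 65536 h2 (hn₀ n h1) P hmono hiso hex hne hloc s hs
  · exact local_evasive_dual 65536 h2 (hn₀ n h1) P hmono hiso hex hne hloc s hs

end Pool.Agent.Results.MP_257582_lc.SmallMinimalGraphs
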